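import Mathlib
import Pool.Agent.Y501.SY.BridgeA

/-!
# Symplectic forms and amenable coverings

Let `pr : Z → X` be a normal covering with amenable deck group `Γ` and `J` an almost complex
structure on `X`. Then `J` is tamed by a symplectic form on `X` if and only if there is a closed
two-form on `Z`, all of whose translates are locally bounded with all derivatives, uniformly in
`Γ`, and which uniformly tames the lift of `J`.
-/

set_option autoImplicit false

open scoped Manifold ContDiff

namespace Pool.Agent.Results.MP_9986fc_gt.AmenableDescent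

open Pool.Agent.Y501.SYP

theorem result (d : ℕ) (Z X : Type) [TopologicalSpace Z] [ChartedSpace (ES d) Z]
    [IsManifold 𝓘(ℝ, ES d) ∞ Z] [TopologicalSpace X] [ChartedSpace (ES d) X]
    [IsManifold 𝓘(ℝ, ES d) ∞ X] (Γ : Type) [Group Γ] [MulAction Γ Z] (hΓ : Amenable Γ)
    (pr : Z → X) (hpr : NormalCovering (ES d) Γ pr) (J : End (ES d) X) :
    (∃ σ : Form (ES d) X 2, IsTamingSymplectic σ J) ↔
    ∃ w : Form (ES d) Z 2, IsSmooth w ∧ IsClosedForm w ∧ BoundedTranslates Γ w ∧
      UnifTames Γ pr J w :=
  amenable_descent hΓ pr hpr J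

end Pool.Agent.Results.MP_9986fc_gt.AmenableDescent
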