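import Mathlib
import Pool.Agent.Y685.SY.Final

/-!
# Closed 2-forms of the critical Sobolev class can be smoothed to symplectic forms

Let `M` be a closed smooth manifold of dimension `m`.  A weakly closed 2-form `θ` with components
in `W^{1,m}` (it need not be bounded) and `|θ (u, ·)| ≥ c |u|` almost everywhere is cohomologous to
a smooth symplectic form, which induces the same orientation; more generally this holds when `θ` is
tame in the mean (`MeanTame`).
-/

open scoped Manifold ContDiff
open Pool.Agent.Y519.AS (TwoForm)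
open Pool.Agent.Y685.SY

namespace Pool.Agent.Results.MP_9986fc_gt.CriticalSobolev

theorem result {E : Type} [NormedAddCommGroup E] [InnerProductSpace ℝ E] [FiniteDimensional ℝ E]
    [MeasurableSpace E] [BorelSpace E] (hm : 0 < Module.finrank ℝ E)
    {M : Type} [TopologicalSpace M] [ChartedSpace E M] [IsManifold 𝓘(ℝ, E) ∞ M]
    [CompactSpace M] [T2Space M] (θ θ₀ : TwoForm E M) (α : Cov E M)
    (h₀ : θ₀.IsSmooth) (c₀ : θ₀.IsClosedForm) (hα : WeakD θ θ₀ α)
    (hθ : (SobolevFamily (fun _ : Unit => θ) ∧ UnifNondeg (fun _ : Unit => θ))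
      ∨ MeanTame (fun _ : Unit => θ)) :
    ∃ (σ : TwoForm E M) (β : Cov E M), σ.IsSymplectic ∧ SmoothCov β ∧ IsD σ θ₀ β ∧
      ∀ τ : TwoForm E M, ContForm τ → τ.IsNondegenerate → SameOriAE θ τ → SameOri σ τ :=
  smoothing hm h₀ c₀ hα hθ

end Pool.Agent.Results.MP_9986fc_gt.CriticalSobolev
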