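import Mathlib
import Pool.Agent.Y501.SY.FinalT

/-!
# Removable singularities of closed two-forms taming an almost complex structure

`X` is a closed manifold with a continuous almost complex structure `J`, and `K` is a closed
subset whose `(d-1)`-dimensional Hausdorff measure is zero. `σ` is a bounded two-form which is
smooth, closed and weakly taming off `K`. If the components of the set of points near which `σ`
is not uniformly taming are small, then `J` is tamed by a symplectic form, which is equal to
`σ + dα` with a smooth one-form `α` outside a given neighbourhood of `K`.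
-/

set_option autoImplicit false

open Set MeasureTheory
open scoped Manifold ContDiff

namespace Pool.Agent.Results.MP_9986fc_gt.RemovableSingularities

open Pool.Agent.Y501.SYP

theorem result (d : ℕ) (hd : 1 ≤ d) (X : Type) [TopologicalSpace X] [ChartedSpace (ES d) X]
    [IsManifold 𝓘(ℝ, ES d) ∞ X] [CompactSpace X] [T2Space X]
    (J : End (ES d) X) (hJ : IsAlmostComplex J) (K : Set X) (hK : IsClosed K)
    (hH : ∀ x₀ : X, μH[(d : ℝ) - 1] (chartAt (ES d) x₀ '' (K ∩ (chartAt (ES d) x₀).source)) = 0)
    (σ : Form (ES d) X 2) (hσ : ClosedOff σ K) (hb : ∀ x ∈ K, BddNear σ K x)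
    (hpos : ∀ x, x ∉ K → ∀ v : TangentSpace 𝓘(ℝ, ES d) x, 0 ≤ qd σ J x v)
    (hsmall : ∀ z ∈ Crit σ J K, SmallAll J (connectedComponentIn (Crit σ J K) z) z)
    (U : Set X) (hU : IsOpen U) (hKU : K ⊆ U) :
    ∃ (α : Form (ES d) X 1) (η w : Form (ES d) X 2), IsSmooth α ∧ IsSmooth η ∧ IsD α η ∧
      IsTamingSymplectic w J ∧ ∀ x, x ∉ U → w x = addF σ η x :=
  removableSing hd J hJ K hK hH σ hσ hb hpos hsmall U hU hKU

end Pool.Agent.Results.MP_9986fc_gt.RemovableSingularities
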