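import Mathlib
import Pool.Agent.Y517.NT.BrA

/-!
# Symplectic forms near weakly taming forms

`X` is a closed manifold with a continuous almost complex structure `J`, `σ` is a smooth closed
two-form with `σ(v, J v) ≥ 0` and `τ` is any smooth closed two-form. The theorem characterizes when
`σ + ε τ'` is, for some `τ'` cohomologous to `τ` and all small `ε > 0`, a symplectic form taming
`J`: this holds if and only if the set of nonzero null vectors of `σ` can be exhausted by the rules
of `Good`, and if and only if there is no `Obstruction`. If `σ` and `J` are real analytic then every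
obstruction lies, near some of its points, in a real analytic submanifold with a tangent null
complex line at each of its points, and if the null vectors at each point lie in one complex line
then these lines form an involutive distribution on the submanifold.
-/

set_option autoImplicit false

open Set
open scoped Manifold ContDiff

namespace Pool.Agent.Results.MP_9986fc_gt.TransverseDegeneracy

open Pool.Agent.Y501.SYP Pool.Agent.Y517.NTP

theorem result (d : ℕ) (X : Type) [TopologicalSpace X] [ChartedSpace (ES d) X]
    [IsManifold 𝓘(ℝ, ES d) ∞ X] [CompactSpace X] [T2Space X]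
    (J : End (ES d) X) (hJ : IsAlmostComplex J)
    (σ τ : Form (ES d) X 2) (hσ : IsSmooth σ) (hσc : IsClosedForm σ)
    (hτ : IsSmooth τ) (hτc : IsClosedForm τ)
    (hpos : ∀ (x : X) (v : TangentSpace 𝓘(ℝ, ES d) x), 0 ≤ qd σ J x v) :
    (Tamed J σ τ ↔ Good J τ (Null σ J)) ∧
      (Tamed J σ τ ↔ ¬ ∃ (C : Set X) (T : Vecs (ES d) X), Obstruction J σ τ C T) ∧
      (IsAnalytic σ J → ∀ (C : Set X) (T : Vecs (ES d) X), Obstruction J σ τ C T →
        ∀ x₀ : X, (C ∩ (chartAt (ES d) x₀).source).Nonempty →
        ∃ (U : Set (ES d)) (r : ℕ) (g : Fin r → ES d → ℝ), NullManifold σ J C x₀ U r g ∧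
          (OneLine σ J → Involutive σ J x₀ U g)) :=
  ⟨good_iff hJ hσ hσc hτ hτc hpos, obstruction_iff hJ hσ hσc hτ hτc hpos,
    fun ha _ _ hT x₀ hx₀ => null_manifold hJ hpos ha hT x₀ hx₀⟩

end Pool.Agent.Results.MP_9986fc_gt.TransverseDegeneracy
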